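import Pool.Agent.Q278.HT

set_option autoImplicit false

namespace Pool.Agent.Results.MP_c42a9c_nt.Full

open Finset Q278.HA Q278.HT

/-- For every odd prime `p` (including `3`) and every `r ≥ 1`,
`∑_{k=0}^{(p^r-1)/2} (4k+1) (1/2)_k^4 / k!^4 ≡ ∑_{k=0}^{p^r-1} (3k+1) (1/2)_k^3 / k!^3 2^{2k}`
modulo `p^{r+4}`. -/
theorem result (p r : ℕ) (hp : p.Prime) (h2 : p ≠ 2) (hr : 1 ≤ r) :
    ∃ w : ℚ, ¬ p ∣ w.den ∧
      ∑ k ∈ range ((p ^ r - 1) / 2 + 1), (4 * (k : ℚ) + 1) *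
          ((∏ i ∈ range k, ((1 : ℚ) / 2 + i)) ^ 4 / (k.factorial : ℚ) ^ 4) -
        ∑ k ∈ range (p ^ r), (3 * (k : ℚ) + 1) *
          ((∏ i ∈ range k, ((1 : ℚ) / 2 + i)) ^ 3 / (k.factorial : ℚ) ^ 3) * 2 ^ (2 * k) =
      (p : ℚ) ^ (r + 4) * w := by
  obtain ⟨w, hw, e⟩ := AB hp h2 hr
  refine ⟨w, hw, ?_⟩
  rw [← e]
  congr 1
  · apply sum_congr rfl
    intro k _
    rw [← div_pow, u_eq]
  · apply sum_congr rfl
    intro k _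
    rw [← div_pow, u_eq, pow_mul]
    norm_num

end Pool.Agent.Results.MP_c42a9c_nt.Full
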